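import Pool.Agent.Helper73.Sim.Transfer

open scoped Classical BigOperators
open Finset

namespace Pool.Agent.Results.MP_583446_co.FewEquidistant

noncomputable section

open Pool.Agent.Results.MP_583446_co.SimilarTriangles (E3 IsTriangle SimilarSets s)
open Pool.Agent.Helper98.Sim Pool.Agent.Helper73.Sim

/-- **Theorem.** If, for any two distinct points of `P`, at most `m` points of `P` are equidistant
from both (in particular if no plane contains more than `m` points of `P`), then `P` contains at
most `260 n² m^(1/4)` triangles similar to a given triangle `D`. -/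
theorem result (P D : Finset E3) (hD : IsTriangle D) (m : ℕ) (hm1 : 1 ≤ m)
    (hm : ∀ a ∈ P, ∀ b ∈ P, a ≠ b → (P.filter (fun x => dist x a = dist x b)).card ≤ m) :
    (s P D : ℝ) ≤ 260 * (P.card : ℝ) ^ 2 * (m : ℝ) ^ (1 / 4 : ℝ) := by
  obtain ⟨hc, hcol⟩ := hD
  obtain ⟨a, b, c, hab, hac, hbc, rfl⟩ := Finset.card_eq_three.mp hc
  obtain ⟨L, M, hG, hs⟩ := count_le a b c hab hac hbc (by simpa using hcol) P
    ((P.powersetCard 3).filter (fun T => IsTriangle T ∧ SimilarSets {a, b, c} T))
    (fun _ => True) (by
      intro T hT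
      rw [mem_filter, mem_powersetCard] at hT
      obtain ⟨⟨hTP, _⟩, _, φ, r, hr, himg⟩ := hT
      refine ⟨hTP, φ, r, hr, ?_, trivial⟩
      have : (T : Set E3) = ({φ (r • a), φ (r • b), φ (r • c)} : Finset E3) := by
        rw [← himg]
        ext x
        simp only [Finset.coe_insert, Finset.coe_singleton, Set.image_insert_eq,
          Set.image_singleton]
      exact_mod_cast this)
  obtain ⟨hPart, hCr, hZ, hK⟩ := all_inputs
  have hQ : (P.image io).card = P.card := Finset.card_image_of_injective P io_inj
  have h1 := st_Bis hPart hCr hZ hK L M (P.image io) hG m hm1 (by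
    intro r hr t ht hrt
    obtain ⟨r', hr', rfl⟩ := Finset.mem_image.mp hr
    obtain ⟨t', ht', rfl⟩ := Finset.mem_image.mp ht
    have hne : r' ≠ t' := fun h => hrt (by rw [h])
    refine le_trans (Finset.card_le_card (t := (P.filter
      (fun x => dist x r' = dist x t')).image io) ?_) (Finset.card_image_le.trans
        (hm r' hr' t' ht' hne))
    intro x hx
    simp only [bisSet, mem_filter, mem_image] at hx ⊢
    obtain ⟨⟨x', hx', rfl⟩, hb⟩ := hx
    refine ⟨x', ⟨hx', ?_⟩, rfl⟩
    unfold Bis at hb
    rw [nsq_io, nsq_io] at hb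
    exact (sq_eq_sq₀ dist_nonneg dist_nonneg).mp hb)
  rw [hQ] at h1
  refine le_trans ?_ h1
  simp only [and_true] at hs
  exact_mod_cast hs

end

end Pool.Agent.Results.MP_583446_co.FewEquidistant
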