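import Pool.Agent.Helper34.Sim.C1b
import Pool.Agent.Helper34.Sim.D2
import Pool.Agent.Helper36.Sim.A1a
import Pool.Agent.Helper36.Sim.A1c
import Pool.Agent.Helper36.Sim.A2
import Pool.Agent.Helper36.Sim.B4
import Pool.Agent.Helper36.Sim.C1
import Pool.Agent.Helper55.Sim.B0
import Pool.Agent.Helper55.Sim.B1
import Pool.Agent.Helper55.Sim.C1a
import Pool.Agent.Helper55.Sim.D1
import Pool.Agent.Helper74.Sim.E1
import Pool.Agent.Helper81.Sim.A3
import Pool.Agent.Helper98.Sim.B2
import Pool.Agent.Helper98.Sim.B3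
import Pool.Agent.Helper98.Sim.A1b
import Pool.Agent.Helper98.Sim.C2
import Pool.Agent.Helper98.Sim.E2
import Pool.Agent.Helper98.Sim.F1
import Pool.Agent.Helper98.Sim.Main

open scoped Classical BigOperators
open Finset

namespace Pool.Agent.Results.MP_583446_co.SimilarTriangles

noncomputable section

/-- Euclidean 3-space -/
abbrev E3 : Type := EuclideanSpace ℝ (Fin 3)

/-- A triangle: a set of three non-collinear points. -/
def IsTriangle (T : Finset E3) : Prop := T.card = 3 ∧ ¬ Collinear ℝ (T : Set E3)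

/-- `T` is the image of `S` under a similarity, i.e. a composition of a scaling `x ↦ r • x`,
`r > 0`, and an isometry. -/
def SimilarSets (S T : Finset E3) : Prop :=
  ∃ (φ : E3 ≃ᵢ E3) (r : ℝ), 0 < r ∧ (fun x => φ (r • x)) '' (S : Set E3) = (T : Set E3)

/-- number of 3-element subsets of `P` that form a triangle similar to `D` -/
def s (P D : Finset E3) : ℕ :=
  ((P.powersetCard 3).filter (fun T => IsTriangle T ∧ SimilarSets D T)).card

/-- the maximum number of triangles similar to a given one in an `n`-point set -/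
def f (n : ℕ) : ℕ := sSup {m | ∃ P D : Finset E3, P.card = n ∧ IsTriangle D ∧ m = s P D}

open Pool.Agent.Helper98.Sim in
theorem s_le (P D : Finset E3) (hD : IsTriangle D) :
    ∃ (L M : ℝ) (Q : Finset (Fin 3 → ℝ)), Good L M ∧ Q.card = P.card ∧
      s P D ≤ ((Q ×ˢ Q ×ˢ Q).filter (fun z => Tri L M z.1 z.2.1 z.2.2)).card := by
  obtain ⟨hc, hcol⟩ := hD
  obtain ⟨a, b, c, hab, hac, hbc, rfl⟩ := Finset.card_eq_three.mp hc
  set ι : E3 → (Fin 3 → ℝ) := fun x => WithLp.ofLp x with hι
  have hιinj : Function.Injective ι := WithLp.ofLp_injective 2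
  have hnsq : ∀ x y : E3, nsq (ι x - ι y) = dist x y ^ 2 := by
    intro x y
    rw [EuclideanSpace.dist_eq, Real.sq_sqrt (Finset.sum_nonneg (fun i _ => sq_nonneg _))]
    simp only [nsq, dotProduct, Pi.sub_apply, hι]
    refine Finset.sum_congr rfl (fun i _ => ?_)
    rw [Real.dist_eq, sq_abs, sq]
  have hd0 : 0 < dist a b := dist_pos.mpr hab
  refine ⟨dist c a ^ 2 / dist a b ^ 2, dist c b ^ 2 / dist a b ^ 2, P.image ι, ?_,
    Finset.card_image_of_injective P hιinj, ?_⟩
  · -- strict Cauchy-Schwarz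
    unfold Good
    have hin : (1 + dist c a ^ 2 / dist a b ^ 2 - dist c b ^ 2 / dist a b ^ 2) =
        2 * inner ℝ (c - a) (b - a) / dist a b ^ 2 := by
      have e1 : dist c b ^ 2 = dist c a ^ 2 - 2 * inner ℝ (c - a) (b - a) + dist a b ^ 2 := by
        have : c - b = (c - a) - (b - a) := by abel
        rw [dist_eq_norm, dist_eq_norm, dist_comm a b, dist_eq_norm, this, norm_sub_sq_real]
      rw [e1]
      field_simp
      ring
    rw [hin]
    have hCS : inner ℝ (c - a) (b - a) ^ 2 < dist c a ^ 2 * dist a b ^ 2 := by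
      have h1 : |inner ℝ (c - a) (b - a)| < ‖c - a‖ * ‖b - a‖ := by
        refine lt_of_le_of_ne (abs_real_inner_le_norm _ _) ?_
        intro heq
        apply hcol
        have hca : c - a ≠ 0 := sub_ne_zero.mpr hac.symm
        have hba : b - a ≠ 0 := sub_ne_zero.mpr hab.symm
        have hne : ‖c - a‖ * ‖b - a‖ ≠ 0 := mul_ne_zero (norm_ne_zero_iff.mpr hca) (norm_ne_zero_iff.mpr hba)
        have h2 : |inner ℝ (c - a) (b - a) / (‖c - a‖ * ‖b - a‖)| = 1 := by
          rw [abs_div, heq, abs_mul, abs_norm, abs_norm, div_self hne]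
        obtain ⟨_, r, hr, hr2⟩ := (abs_real_inner_div_norm_mul_norm_eq_one_iff (c - a) (b - a)).mp h2
        rw [collinear_iff_of_mem (p₀ := a) (by simp)]
        refine ⟨c - a, ?_⟩
        intro x hx
        simp only [Finset.coe_insert, Finset.coe_singleton, Set.mem_insert_iff,
          Set.mem_singleton_iff] at hx
        rcases hx with rfl | rfl | rfl
        · exact ⟨0, by simp⟩
        · refine ⟨r, ?_⟩
          rw [← hr2]
          simp
        · exact ⟨1, by simp⟩
      rw [← sq_abs (inner ℝ (c - a) (b - a)), dist_eq_norm, dist_comm a b, dist_eq_norm, ← mul_pow]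
      exact pow_lt_pow_left₀ h1 (abs_nonneg _) (by norm_num)
    have hd2 : 0 < dist a b ^ 2 := by positivity
    rw [div_pow, div_lt_iff₀ (by positivity)]
    have : 4 * (dist c a ^ 2 / dist a b ^ 2) * (dist a b ^ 2) ^ 2 =
        4 * (dist c a ^ 2 * dist a b ^ 2) := by field_simp
    rw [this]
    nlinarith
  · -- injection
    have hex : ∀ T ∈ ((P.powersetCard 3).filter (fun T => IsTriangle T ∧ SimilarSets {a, b, c} T)),
        ∃ z : E3 × E3 × E3, T = {z.1, z.2.1, z.2.2} ∧ dist z.1 z.2.2 ^ 2 =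
          dist c a ^ 2 / dist a b ^ 2 * dist z.1 z.2.1 ^ 2 ∧ dist z.2.1 z.2.2 ^ 2 =
          dist c b ^ 2 / dist a b ^ 2 * dist z.1 z.2.1 ^ 2 ∧ z.1 ≠ z.2.1 := by
      intro T hT
      rw [mem_filter] at hT
      obtain ⟨_, _, φ, r, hr, himg⟩ := hT
      refine ⟨(φ (r • a), φ (r • b), φ (r • c)), ?_, ?_, ?_, ?_⟩
      · have : (T : Set E3) = ({φ (r • a), φ (r • b), φ (r • c)} : Finset E3) := by
          rw [← himg]
          ext x
          simp only [Finset.coe_insert, Finset.coe_singleton, Set.image_insert_eq,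
            Set.image_singleton]
        exact_mod_cast this
      · simp only [φ.dist_eq]
        rw [dist_smul₀, dist_smul₀, Real.norm_of_nonneg hr.le, dist_comm a c]
        field_simp
      · simp only [φ.dist_eq]
        rw [dist_smul₀, dist_smul₀, Real.norm_of_nonneg hr.le, dist_comm b c]
        field_simp
      · intro h
        exact hab (smul_right_injective E3 hr.ne' (φ.injective h))
    choose! z hz using hex
    unfold s
    apply Finset.card_le_card_of_injOn (fun T => (ι (z T).1, ι (z T).2.1, ι (z T).2.2))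
    · intro T hT
      have hT' := hz T hT
      have hTP : T ⊆ P := by
        have h1 := Finset.mem_filter.mp (Finset.mem_coe.mp hT)
        exact (Finset.mem_powersetCard.mp h1.1).1
      obtain ⟨h1, h2, h3, h4⟩ := hT'
      have m1 : (z T).1 ∈ P := hTP ((Finset.ext_iff.mp h1 _).mpr (by simp))
      have m2 : (z T).2.1 ∈ P := hTP ((Finset.ext_iff.mp h1 _).mpr (by simp))
      have m3 : (z T).2.2 ∈ P := hTP ((Finset.ext_iff.mp h1 _).mpr (by simp))
      simp only [coe_filter, mem_product, Set.mem_ofPred_eq]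
      refine ⟨⟨mem_image_of_mem _ m1, mem_image_of_mem _ m2, mem_image_of_mem _ m3⟩, ?_, ?_, ?_⟩
      · exact fun h => h4 (hιinj h)
      · rw [hnsq, hnsq, dist_comm, dist_comm (z T).2.1]
        exact h2
      · rw [hnsq, hnsq, dist_comm, dist_comm (z T).2.1 (z T).1]
        exact h3
    · intro T hT T' hT' h
      simp only [Prod.mk.injEq] at h
      obtain ⟨h1, h2, h3⟩ := h
      rw [(hz T hT).1, (hz T' hT').1, hιinj h1, hιinj h2, hιinj h3]

open Pool.Agent.Helper98.Sim in
theorem main_all : Main_stmt := by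
  have hBU : BU_stmt := Pool.Agent.Helper36.Sim.st_A1c Pool.Agent.Helper36.Sim.st_A1a
    Pool.Agent.Helper98.Sim.st_Sd
  have hPart : ∀ d, Part_stmt d := st_A3 (Pool.Agent.Helper36.Sim.st_A2 hBU)
  have hS1 : Subst1_stmt := Pool.Agent.Helper55.Sim.st_Subst1
  have hSC : SignCount_stmt := Pool.Agent.Helper55.Sim.st_SignCount
  have hSM : SubstM_stmt := Pool.Agent.Helper55.Sim.st_SubstM
  have hCL : ∀ d, CrossLine_stmt d := Pool.Agent.Helper55.Sim.st_CrossLine hS1 hSC
  have hCr : Cross_stmt := Pool.Agent.Helper55.Sim.st_Cross hS1 hSC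
  have hH : ∀ d, HypCount_stmt d := Pool.Agent.Helper55.Sim.st_HypCount hS1
  have hST2 : ST_stmt 2 := st_B2 (hPart 2) (hCL 2) (hH 2)
  have hST3 : ST_stmt 3 := st_B3 hST2
  have hRL : RichLines_stmt := Pool.Agent.Helper36.Sim.st_B4 hST3
  have hRD : RichDir_stmt := Pool.Agent.Helper55.Sim.st_RichDir hRL
  have hBk : Beck_stmt := Pool.Agent.Helper34.SimC1b.st_C1b hRL
  have hND : Nondeg_stmt := Pool.Agent.Helper36.Sim.st_C1 hRD hBk
  have hPS : PlaneSums_stmt := st_PlaneSums hRL hND
  have hZ : Zero_stmt := Pool.Agent.Helper34.Sim.st_D2 hCr hSM (hH 3)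
  have hK : Kite_stmt := Pool.Agent.Helper74.Sim.st_E1
  have hPP : PerPlane_stmt := st_E2 hST3
  exact st_Main (hPart 3) hCr hPS hZ hK (st_F1 hPP hK)

theorem bound (P D : Finset E3) (hP : 2 ≤ P.card) (hD : IsTriangle D) {C : ℝ}
    (hC : ∀ (L M : ℝ) (Q : Finset (Fin 3 → ℝ)), Pool.Agent.Helper98.Sim.Good L M → 2 ≤ Q.card →
      (((Q ×ˢ Q ×ˢ Q).filter (fun z => Pool.Agent.Helper98.Sim.Tri L M z.1 z.2.1 z.2.2)).card : ℝ) ≤
      C * (Q.card : ℝ) ^ (19 / 9 : ℝ) * Real.log Q.card) :
    (s P D : ℝ) ≤ C * (P.card : ℝ) ^ (19 / 9 : ℝ) * Real.log P.card := by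
  obtain ⟨L, M, Q, hG, hQ, hs⟩ := s_le P D hD
  have h1 := hC L M Q hG (by rw [hQ]; exact hP)
  rw [hQ] at h1
  exact le_trans (by exact_mod_cast hs) h1

/-- **Theorem.** The number of triangles similar to a given triangle spanned by `n` points of
Euclidean 3-space is `O(n^(19/9) log n)`. -/
theorem result : ∃ C : ℝ, 0 < C ∧
    (∀ P D : Finset E3, 2 ≤ P.card → IsTriangle D →
      (s P D : ℝ) ≤ C * (P.card : ℝ) ^ (19 / 9 : ℝ) * Real.log P.card) ∧
    (∀ n : ℕ, 2 ≤ n → (f n : ℝ) ≤ C * (n : ℝ) ^ (19 / 9 : ℝ) * Real.log n) := by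
  obtain ⟨C, hC0, hC⟩ := main_all
  refine ⟨C, hC0, fun P D hP hD => bound P D hP hD hC, ?_⟩
  intro n hn
  set S : Set ℕ := {m | ∃ P D : Finset E3, P.card = n ∧ IsTriangle D ∧ m = s P D} with hS
  have hfS : f n = sSup S := rfl
  have hbdd : BddAbove S := by
    refine ⟨n.choose 3, ?_⟩
    rintro m ⟨P, D, hP, _, rfl⟩
    unfold s
    refine (Finset.card_filter_le _ _).trans ?_
    rw [Finset.card_powersetCard, hP]
  rcases S.eq_empty_or_nonempty with he | hne
  · rw [hfS, he]
    simp only [csSup_empty, Nat.bot_eq_zero, Nat.cast_zero]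
    have : (2 : ℝ) ≤ n := by exact_mod_cast hn
    have := Real.log_nonneg (by linarith : (1 : ℝ) ≤ n)
    positivity
  · obtain ⟨P, D, hP, hD, hm⟩ := Nat.sSup_mem hne hbdd
    rw [hfS, hm]
    have h1 := bound P D (by rw [hP]; exact hn) hD hC
    rw [hP] at h1
    exact h1

end

end Pool.Agent.Results.MP_583446_co.SimilarTriangles
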