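import Pool.Agent.Helper73.Sim.Transfer

open scoped Classical BigOperators
open Finset

namespace Pool.Agent.Results.MP_583446_co.SurfaceVertex

noncomputable section

open Pool.Agent.Results.MP_583446_co.SimilarTriangles (E3 IsTriangle SimilarSets s)
open Pool.Agent.Helper98.Sim Pool.Agent.Helper73.Sim

/-- **Theorem.** At most `30 (deg F + 1) n²` of the triangles similar to `D` spanned by an
`n`-point set `P` have a vertex on the surface `F = 0`. -/
theorem result (P D : Finset E3) (hD : IsTriangle D) (F : MvPolynomial (Fin 3) ℝ) (hF : F ≠ 0) :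
    ((P.powersetCard 3).filter (fun T => IsTriangle T ∧ SimilarSets D T ∧
      ∃ x ∈ T, MvPolynomial.eval (fun i => x i) F = 0)).card ≤
      30 * (F.totalDegree + 1) * P.card ^ 2 := by
  obtain ⟨hc, hcol⟩ := hD
  obtain ⟨a, b, c, hab, hac, hbc, rfl⟩ := Finset.card_eq_three.mp hc
  obtain ⟨hPart, hCr, hZ, hK⟩ := all_inputs
  have hQ : (P.image io).card = P.card := Finset.card_image_of_injective P io_inj
  -- one labelled vertex
  have key : ∀ a b c : E3, a ≠ b → a ≠ c → b ≠ c → ¬ Collinear ℝ ({a, b, c} : Set E3) →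
      ((P.powersetCard 3).filter (fun T => ∃ (φ : E3 ≃ᵢ E3) (r : ℝ), 0 < r ∧
        T = {φ (r • a), φ (r • b), φ (r • c)} ∧
        MvPolynomial.eval (io (φ (r • c))) F = 0)).card ≤
      10 * (F.totalDegree + 1) * P.card ^ 2 := by
    intro a b c hab hac hbc hcol
    obtain ⟨L, M, hG, hs⟩ := count_le a b c hab hac hbc hcol P
      ((P.powersetCard 3).filter (fun T => ∃ (φ : E3 ≃ᵢ E3) (r : ℝ), 0 < r ∧
        T = {φ (r • a), φ (r • b), φ (r • c)} ∧
        MvPolynomial.eval (io (φ (r • c))) F = 0))
      (fun x => MvPolynomial.eval x F = 0) (by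
        intro T hT
        rw [mem_filter, mem_powersetCard] at hT
        exact ⟨hT.1.1, hT.2⟩)
    refine hs.trans ?_
    have h1 := hZ L M (P.image io) F hG hF
    rw [hQ] at h1
    exact h1
  have hcol' : ¬ Collinear ℝ ({a, b, c} : Set E3) := by simpa using hcol
  have p1 : ({b, c, a} : Set E3) = {a, b, c} := by ext x; simp; tauto
  have p2 : ({c, a, b} : Set E3) = {a, b, c} := by ext x; simp; tauto
  have k1 := key a b c hab hac hbc hcol'
  have k2 := key b c a hbc hab.symm hac.symm (by rw [p1]; exact hcol')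
  have k3 := key c a b hac.symm hbc.symm hab (by rw [p2]; exact hcol')
  have hsub : ((P.powersetCard 3).filter (fun T => IsTriangle T ∧ SimilarSets {a, b, c} T ∧
      ∃ x ∈ T, MvPolynomial.eval (fun i => x i) F = 0)) ⊆
      ((P.powersetCard 3).filter (fun T => ∃ (φ : E3 ≃ᵢ E3) (r : ℝ), 0 < r ∧
        T = {φ (r • a), φ (r • b), φ (r • c)} ∧
        MvPolynomial.eval (io (φ (r • c))) F = 0)) ∪
      ((P.powersetCard 3).filter (fun T => ∃ (φ : E3 ≃ᵢ E3) (r : ℝ), 0 < r ∧
        T = {φ (r • b), φ (r • c), φ (r • a)} ∧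
        MvPolynomial.eval (io (φ (r • a))) F = 0)) ∪
      ((P.powersetCard 3).filter (fun T => ∃ (φ : E3 ≃ᵢ E3) (r : ℝ), 0 < r ∧
        T = {φ (r • c), φ (r • a), φ (r • b)} ∧
        MvPolynomial.eval (io (φ (r • b))) F = 0)) := by
    intro T hT
    rw [mem_filter] at hT
    obtain ⟨hTP, _, ⟨φ, r, hr, himg⟩, x, hxT, hx⟩ := hT
    have hTe : T = ({φ (r • a), φ (r • b), φ (r • c)} : Finset E3) := by
      have : (T : Set E3) = ({φ (r • a), φ (r • b), φ (r • c)} : Finset E3) := by
        rw [← himg]
        ext x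
        simp only [Finset.coe_insert, Finset.coe_singleton, Set.image_insert_eq,
          Set.image_singleton]
      exact_mod_cast this
    have hx' : MvPolynomial.eval (io x) F = 0 := hx
    rw [hTe] at hxT
    simp only [mem_insert, mem_singleton] at hxT
    simp only [mem_union, mem_filter]
    rcases hxT with h | h | h
    · left; right
      refine ⟨hTP, φ, r, hr, ?_, by rw [← h]; exact hx'⟩
      rw [hTe]; ext y; simp only [mem_insert, mem_singleton]; tauto
    · right
      refine ⟨hTP, φ, r, hr, ?_, by rw [← h]; exact hx'⟩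
      rw [hTe]; ext y; simp only [mem_insert, mem_singleton]; tauto
    · left; left
      exact ⟨hTP, φ, r, hr, hTe, by rw [← h]; exact hx'⟩
  refine (Finset.card_le_card hsub).trans ((Finset.card_union_le _ _).trans
    ((Nat.add_le_add_right (Finset.card_union_le _ _) _).trans ?_))
  calc _ ≤ 10 * (F.totalDegree + 1) * P.card ^ 2 + 10 * (F.totalDegree + 1) * P.card ^ 2 +
        10 * (F.totalDegree + 1) * P.card ^ 2 := by
        exact Nat.add_le_add (Nat.add_le_add k1 k2) k3
    _ = _ := by ring

end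

end Pool.Agent.Results.MP_583446_co.SurfaceVertex
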